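import Mathlib
import Pool.Agent.N678.CL.Scal

/-!
# Clarkson type inequalities for `n`-tuples of operators

Both questions have a positive answer in the range in which `q` is a positive number: for all operators
`A_0, ..., A_{n-1}` of the Schatten class `S_p` on a complex Hilbert space,

* `n (∑ ‖A_j‖_p^p)^(q/p) ≤ ‖∑ A_j‖_p^q + ∑_{j<k} ‖A_j - A_k‖_p^q` for `2 ≤ p < ∞`,
* `‖∑ A_j‖_p^q + ∑_{j<k} ‖A_j - A_k‖_p^q ≤ n (∑ ‖A_j‖_p^p)^(q/p)` for `1 < p ≤ 2`.

If `0 < p < 1`, then `q < 0`, and the second inequality fails for every `n ≥ 2`, already for numbers.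

Proof. Let `T` be the real matrix of `(A_j) ↦ (∑ A_j, A_j - A_k)`. Its entries have absolute value at most `1`, and
`Tᵗ T = n`. For finite families of rank one operators (singular value decompositions of the `A_j` and of the
components of `T A`) the bilinear form given by `T` is bounded by `1` with respect to the norms of `ℓ¹(S_1)` and
`ℓ¹(S_∞)`, and by `√n` with respect to the norms of `ℓ²(S_2)`; the three lines theorem gives the bound `n^(1/q)` for the
norms of `ℓ^p(S_p)` and `ℓ^p(S_q)`, `1 < p ≤ 2`. This is the second inequality; the first one follows by duality,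
`A = Tᵗ (T A) / n`.
-/

set_option autoImplicit false

namespace Pool.Agent.Results.MP_5deb6a_an.ClarksonTuples

open Pool.Agent.N678.CL

universe u v

/-- **Clarkson inequalities for `n`-tuples of operators in `S_p`.** -/
theorem result :
    (∀ (H : Type u) [NormedAddCommGroup H] [InnerProductSpace ℂ H] [CompleteSpace H] (ι : Type v)
      (b : HilbertBasis ι ℂ H) (n : ℕ) (p q : ℝ) (A : Fin n → (H →L[ℂ] H)), 1 / p + 1 / q = 1 →
      (∀ j, InSchatten b p (A j)) →
      (2 ≤ p → Lside b p q A ≤ Rside b p q A) ∧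
      (1 < p → p ≤ 2 → Rside b p q A ≤ Lside b p q A)) ∧
    ∀ n : ℕ, 2 ≤ n → ∀ p q : ℝ, 0 < p → p < 1 → 1 / p + 1 / q = 1 →
      ∃ A : Fin n → (ℂ →L[ℂ] ℂ), (∀ j, InSchatten b0 p (A j)) ∧ (∀ j k, j < k → A j ≠ A k) ∧
        ∑ j, A j ≠ 0 ∧ Lside b0 p q A < Rside b0 p q A ∧ Rside b0 p q A < ⊤ := by
  refine ⟨?_, fun n hn p q hp0 hp1 hpq => neg_part hn hp0 hp1 hpq⟩
  intro H _ _ _ ι b n p q A hpq hA
  refine ⟨fun hp => ?_, fun hp1 hp2 => ?_⟩
  · rw [Lside_eq b (by linarith : p ≠ 0), Rside_eq]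
    exact clarkson_one A (fun j => (hA j).1) b hp hpq
  · rw [Lside_eq b (by linarith : p ≠ 0), Rside_eq]
    exact clarkson_two A (fun j => (hA j).1) b hp1 hp2 hpq

end Pool.Agent.Results.MP_5deb6a_an.ClarksonTuples
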